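import Pool.Agent.helper2.BB.Spec

/-! # bb:ZZ. The theorem -/

set_option autoImplicit false

namespace BB

open Metric MeasureTheory Set Filter Topology Asymptotics
open Pool.Agent.helper37.PR

/-- the unit vector with angle `θ` -/
noncomputable def ZZ_u {E : Type} [NormedAddCommGroup E] [InnerProductSpace ℂ E] (e₁ e₂ : E) (θ : ℝ) : E :=
  (Real.cos θ : ℂ) • e₁ + (Real.sin θ : ℂ) • e₂

/-- one step -/
noncomputable def ZZ_s {E : Type} [NormedAddCommGroup E] [InnerProductSpace ℂ E] (ε : Bool) (u : E) (q : ℝ)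
    (f : E → E) (z : E) : E := (q : ℂ)⁻¹ • f (VV ε u q z)

/-- the map -/
noncomputable def ZZ_f {E : Type} [NormedAddCommGroup E] [InnerProductSpace ℂ E] (e₁ e₂ : E) (δ lam κ : ℝ) :
    E → E :=
  ZZ_s true (ZZ_u e₁ e₂ 0) (3 * δ) (ZZ_s true (ZZ_u e₁ e₂ κ) (2 / 3)
    (ZZ_s false (ZZ_u e₁ e₂ (-(lam * δ * κ))) (1 / 2) (ff (ZZ_u e₁ e₂ (-κ)))))

theorem ZZ_slice (hC2 : C2_stmt) {E : Type} [NormedAddCommGroup E] [InnerProductSpace ℂ E] (e₁ e₂ : E)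
    (h1 : ‖e₁‖ = 1) (h2 : ‖e₂‖ = 1) (h12 : (inner ℂ e₁ e₂ : ℂ) = 0) (δ lam κ : ℝ) (hδ : 0 < δ) (ζ : ℂ) :
    (inner ℂ e₁ (ZZ_f e₁ e₂ δ lam κ (ζ • e₁)) : ℂ) = FF δ lam κ ζ := by
  have hz : ζ • e₁ = ζ • e₁ + (0 : ℂ) • e₂ := by rw [zero_smul, add_zero]
  have s0 := (hC2 E e₁ e₂ 0 ζ 0 h1 h2 h12).2.1 true (3 * δ)
  have s1 := fun A B => (hC2 E e₁ e₂ κ A B h1 h2 h12).2.1 true (2 / 3)
  have s2 := fun A B => (hC2 E e₁ e₂ (-(lam * δ * κ)) A B h1 h2 h12).2.1 false (1 / 2)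
  have s3 := fun A B => (hC2 E e₁ e₂ (-κ) A B h1 h2 h12).2.2
  unfold ZZ_f ZZ_s ZZ_u
  rw [hz, s0, s1, s2, inner_smul_right, inner_smul_right, inner_smul_right, s3]
  unfold FF
  have hδ' : (δ : ℂ) ≠ 0 := by exact_mod_cast hδ.ne'
  push_cast
  rw [← mul_assoc, ← mul_assoc]
  congr 1
  field_simp

theorem ZZ_step (hB5 : B5_stmt) {E : Type} [NormedAddCommGroup E] [InnerProductSpace ℂ E] [CompleteSpace E]
    [ProperSpace E] (ε : Bool) (u : E) (q : ℝ) (f : E → E) (hu : ‖u‖ = 1) (h0 : 0 < q) (h1 : q ≤ 1)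
    (hf : ParamRep (ContinuousLinearMap.id ℂ E) f) :
    ParamRep (ContinuousLinearMap.id ℂ E) (ZZ_s ε u q f) := hB5 E ε u q f hu h0 h1 hf

theorem ZZ_main (hB4 : B4_stmt) (hB5 : B5_stmt) (hC1 : C1_stmt) (hC2 : C2_stmt) (hC9 : C9_stmt)
    (m : ℕ) (hm : 3 ≤ m) {E : Type} [NormedAddCommGroup E] [InnerProductSpace ℂ E] [CompleteSpace E]
    [ProperSpace E] (e₁ e₂ : E) (h1 : ‖e₁‖ = 1) (h2 : ‖e₂‖ = 1) (h12 : (inner ℂ e₁ e₂ : ℂ) = 0) :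
    ∃ f : E → E, ParamRep (ContinuousLinearMap.id ℂ E) f ∧ ∃ z : E, ‖z‖ = 1 ∧
    (m : ℝ) < ‖(inner ℂ z (((m.factorial : ℂ)⁻¹) • iteratedFDeriv ℂ m f 0 (fun _ => z)) : ℂ)‖ := by
  obtain ⟨δ, lam, κ, hδ, hδ3, hlt⟩ := hC9 m hm
  have hu : ∀ θ : ℝ, ‖ZZ_u e₁ e₂ θ‖ = 1 := fun θ => (hC2 _ e₁ e₂ θ 0 0 h1 h2 h12).1
  have g0 : ParamRep (ContinuousLinearMap.id ℂ E) (ZZ_f e₁ e₂ δ lam κ) := by
    unfold ZZ_f
    apply ZZ_step hB5 _ _ _ _ (hu _) (by linarith) (by linarith)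
    apply ZZ_step hB5 _ _ _ _ (hu _) (by norm_num) (by norm_num)
    apply ZZ_step hB5 _ _ _ _ (hu _) (by norm_num) (by norm_num)
    exact hB4 E _ (hu _)
  refine ⟨ZZ_f e₁ e₂ δ lam κ, g0, e₁, h1, ?_⟩
  have han := g0.1 0 (by simp)
  rw [hC1 E _ e₁ m han]
  have hfun : (fun ζ : ℂ => (inner ℂ e₁ (ZZ_f e₁ e₂ δ lam κ (ζ • e₁)) : ℂ)) =
      fun ζ => FF δ lam κ ζ := funext fun ζ => ZZ_slice hC2 e₁ e₂ h1 h2 h12 δ lam κ hδ ζ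
  rw [hfun]
  exact lt_of_lt_of_le hlt (Complex.re_le_norm _)

theorem ZZ (hB4 : B4_stmt) (hB5 : B5_stmt) (hC1 : C1_stmt) (hC2 : C2_stmt) (hC9 : C9_stmt) :
    ZZ_stmt := by
  intro n m hn hm
  have h12 : (inner ℂ (EuclideanSpace.single (⟨0, by omega⟩ : Fin n) (1 : ℂ))
      (EuclideanSpace.single (⟨1, by omega⟩ : Fin n) (1 : ℂ)) : ℂ) = 0 := by
    rw [EuclideanSpace.inner_single_left]
    simp
  exact ZZ_main hB4 hB5 hC1 hC2 hC9 m hm (EuclideanSpace.single (⟨0, by omega⟩ : Fin n) (1 : ℂ))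
    (EuclideanSpace.single (⟨1, by omega⟩ : Fin n) (1 : ℂ)) (by simp) (by simp) h12

end BB
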